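import Pool.Agent.Helper73.NComp.Model

/-!
Continuous functions have eventually constant values at the rows; the final model.
-/

namespace Pool.Agent.Helper73.NComp

open Pool.Agent.Helper73.Sym

set_option synthInstance.maxSize 2000

instance : Infinite Crd := by
  have : Function.Injective (fun n : ℕ => (⟨0, n⟩ : Crd)) := fun a b h => congrArg Crd.idx h
  exact Infinite.of_injective _ this

theorem star {D : Gen Pc Gp} (hD : Good D) {f : D.M} (hf : Fn f (XA (D.ev allN)) om)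
    (hc : ∀ S, S ∈ XA (D.ev allN) → ∃ F, Sub F (D.ev allN) ∧ IsFin F ∧
        ∀ S', S' ∈ XA (D.ev allN) → (∀ a, a ∈ F → (a ∈ S' ↔ a ∈ S)) → ap f S' = ap f S) :
    ∃ N : ℕ, ∀ m ≥ N, ap f (D.ev (rowN m)) = ap f (D.ev (rowN N)) := by
  classical
  obtain ⟨F, hF, rfl⟩ := Gen.ev_surj f
  obtain ⟨A, ⟨N, hN⟩, hA⟩ := symm_iff.1 hF.hs.symm'
  have hsupp : ∀ g : Gp, (∀ c : Crd, c.row < N → g • c = c) → ∀ p, Eqv (g • F) F p :=
    fun g hg => hA g (fun a ha => hg a (hN a ha))
  refine ⟨N, fun m hm => ?_⟩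
  have hrow : ∀ n, D.ev (rowN n) ∈ XA (D.ev allN) := fun n => by
    rw [mem_XA]
    refine ⟨fun w hw => ?_, _, (r_mem_set hD (hD.row n) ⟨n, 0⟩).2 rfl⟩
    obtain ⟨c, _, rfl⟩ := (mem_set hD (hD.row n) w).1 hw
    exact (r_mem_set hD hD.all c).2 trivial
  have hhas : ∀ n i (t : Finset Crd), ∀ k,
      D.Has (val5 F allN (rowN n) (natN i) (setN (t : Set Crd)) k) := by
    intro n i t k
    rcases k with _ | _ | _ | _ | k
    · exact hF
    · exact hD.all
    · exact hD.row n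
    · exact Gen.has_nat i
    · exact hD.fs t
  -- values
  have key : ∀ n, ∃ (i : ℕ) (t : Finset Crd), ap (D.ev F) (D.ev (rowN n)) = nat i ∧
      ∃ k, Frc Gp fmA (val5 F allN (rowN n) (natN i) (setN (t : Set Crd))) (D.g k) := by
    intro n
    obtain ⟨i, hi⟩ := (mem_om _).1 (ap_mem hf (hrow n))
    obtain ⟨H, hH, hHf, h1⟩ := hc _ (hrow n)
    obtain ⟨t, rfl⟩ := exists_fs hD hH hHf
    refine ⟨i, t, hi, (Gen.truth_ev fmA _ (hhas n i t)).1 ?_⟩
    rw [ev_val5, sat_fmA]
    intro S hS h2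
    have hSX : S ∈ XA (D.ev allN) := (mem_XA S).2 hS
    have h3 := h1 S hSX h2
    show op S (D.ev (natN i)) ∈ D.ev F
    rw [Gen.ev_natN, ← hi, ← h3]
    exact ap_spec hf hSX
  obtain ⟨i, t, hi, k, hk⟩ := key m
  obtain ⟨i', t', hi', k', hk'⟩ := key N
  rw [hi, hi', nat_inj]
  -- functionality
  obtain ⟨l, hl⟩ : ∃ l, Frc Gp fmB (val5 F allN (rowN N) (natN i) (setN (t : Set Crd))) (D.g l) := by
    refine (Gen.truth_ev fmB _ (hhas N i t)).1 ?_
    rw [ev_val5, sat_fmB]
    intro S x y hx hy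
    have hx' : op S x ∈ D.ev F := hx
    have hy' : op S y ∈ D.ev F := hy
    rw [op_mem_iff hf] at hx' hy'
    rw [hx'.2, hy'.2]
  obtain ⟨p, hkp, hk'p, hlp⟩ : ∃ p : Pc, p ≤ D.g k ∧ p ≤ D.g k' ∧ p ≤ D.g l :=
    ⟨D.g (max k (max k' l)), D.anti (le_max_left _ _),
      D.anti ((le_max_left _ _).trans (le_max_right _ _)),
      D.anti ((le_max_right _ _).trans (le_max_right _ _))⟩
  have hk := hk.mono hkp
  have hk' := hk'.mono hk'p
  have hl := hl.mono hlp
  obtain ⟨g, hg1, hg2⟩ := exists_move N (p.supp_finite.toFinset ∪ (t ∪ t'))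
  have hcp : Coh.Cpt p (g • p) := by
    intro c n b b' h1 h2
    rw [Coh.smul_f] at h2
    have hd : g • (g⁻¹ • c) = c := smul_inv_smul g c
    have hc1 : c ∈ p.supp := ⟨n, by rw [h1]; simp⟩
    have hc2 : g⁻¹ • c ∈ p.supp := ⟨n, by rw [h2]; simp⟩
    by_cases hlt : c.row < N
    · have h3 : g⁻¹ • c = c := by rw [inv_smul_eq_iff, hg1 c hlt]
      rw [h3, h1] at h2
      exact Option.some_injective _ h2
    · exfalso
      refine hg2 (g⁻¹ • c) ?_ (not_lt.1 hlt) ?_
      · exact Finset.mem_union_left _ (p.supp_finite.mem_toFinset.2 hc2)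
      · rw [hd]
        exact Finset.mem_union_left _ (p.supp_finite.mem_toFinset.2 hc1)
  have hqp : Coh.uni p (g • p) ≤ p := Coh.uni_le_left _ _
  have hqg : Coh.uni p (g • p) ≤ g • p := Coh.uni_le_right hcp
  generalize Coh.uni p (g • p) = q at hqp hqg
  have e1 := hk.mono hqp
  have e2 : Frc Gp fmA (val5 F allN (rowN N) (natN i')
      (setN ((t'.image (fun c => g • c) : Finset Crd) : Set Crd))) q := by
    have h1 := (frc_smul g).2 hk'
    rw [smul_val5] at h1
    refine Frc.congr ?_ (h1.mono hqg)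
    intro n
    rcases n with _ | _ | _ | _ | n
    · exact hsupp g hg1 q
    · exact smul_allN g q
    · exact smul_rowN g N q
    · show Eqv (g • natN i') (natN i') q
      rw [natN_smul]
      exact Eqv.refl _ _
    · show Eqv (g • setN (t' : Set Crd)) (setN _) q
      rw [Finset.coe_image]
      exact smul_setN g _ q
  have e3 := hl.mono hqp
  -- the new model
  obtain ⟨D', h0, hup, hall, hsep⟩ := exists_gen_sep (G := Gp) q
    (fun k : Option Cd => k.elim F stdN) (by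
      intro k
      rcases k with _ | k
      · exact hF.hs
      · exact hs_stdN k)
  have hD' : Good D' := ⟨hup, hsep, fun k => hall (some k)⟩
  have hF' : D'.Has F := hall none
  have hhas' : ∀ n i (t : Finset Crd), ∀ k,
      D'.Has (val5 F allN (rowN n) (natN i) (setN (t : Set Crd)) k) := by
    intro n i t k
    rcases k with _ | _ | _ | _ | k
    · exact hF'
    · exact hD'.all
    · exact hD'.row n
    · exact Gen.has_nat i
    · exact hD'.fs t
  have s1 := (Gen.truth_ev fmA _ (hhas' m i t)).2 ⟨0, by rw [h0]; exact e1⟩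
  have s2 := (Gen.truth_ev fmA _ (hhas' N i' (t'.image (fun c => g • c)))).2
    ⟨0, by rw [h0]; exact e2⟩
  have s3 := (Gen.truth_ev fmB _ (hhas' N i t)).2 ⟨0, by rw [h0]; exact e3⟩
  rw [ev_val5, sat_fmA] at s1 s2
  rw [ev_val5, sat_fmB] at s3
  obtain ⟨c0, hc0⟩ := Infinite.exists_notMem_finset (t ∪ t'.image (fun c => g • c))
  set u : Finset Crd := t.filter (fun c => c.row = m) ∪
    ((t'.image (fun c => g • c)).filter (fun c => c.row = N) ∪ {c0}) with hu
  have hmu : ∀ c, c ∈ u ↔ (c ∈ t ∧ c.row = m) ∨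
      (c ∈ t'.image (fun c => g • c) ∧ c.row = N) ∨ c = c0 := by
    intro c
    rw [hu, Finset.mem_union, Finset.mem_union, Finset.mem_filter, Finset.mem_filter,
      Finset.mem_singleton]
  rw [Finset.mem_union, not_or] at hc0
  have hmove : ∀ c ∈ t, c ∈ t'.image (fun c => g • c) → ¬ N ≤ c.row := by
    intro c h1 h2 h3
    obtain ⟨d, hd, rfl⟩ := Finset.mem_image.1 h2
    exact hg2 d (Finset.mem_union_right _ (Finset.mem_union_right _ hd)) h3
      (Finset.mem_union_right _ (Finset.mem_union_left _ h1))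
  have hSX : Sub (D'.ev (setN (u : Set Crd))) (D'.ev allN) ∧
      ∃ w : D'.M, w ∈ D'.ev (setN (u : Set Crd)) := by
    refine ⟨fun w hw => ?_, _, (r_mem_set hD' (hD'.fs u) c0).2 ?_⟩
    · obtain ⟨c, _, rfl⟩ := (mem_set hD' (hD'.fs u) w).1 hw
      exact (r_mem_set hD' hD'.all c).2 trivial
    · exact (hmu c0).2 (Or.inr (Or.inr rfl))
  have t1 := s1 (D'.ev (setN (u : Set Crd))) hSX (by
    intro w hw
    obtain ⟨c, hc, rfl⟩ := (mem_set hD' (hD'.fs t) w).1 hw
    have hc : c ∈ t := hc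
    show _ ↔ D'.ev (rN c) ∈ D'.ev (rowN m)
    rw [r_mem_set hD' (hD'.fs u), rowN, r_mem_set hD' (hD'.row m)]
    show c ∈ u ↔ c.row = m
    rw [hmu]
    constructor
    · rintro (h | h | h)
      · exact h.2
      · exact absurd (h.2 ▸ le_rfl) (hmove c hc h.1)
      · rw [h] at hc; exact absurd hc hc0.1
    · intro h
      exact Or.inl ⟨hc, h⟩)
  have t2 := s2 (D'.ev (setN (u : Set Crd))) hSX (by
    intro w hw
    obtain ⟨c, hc, rfl⟩ := (mem_set hD' (hD'.fs (t'.image (fun c => g • c))) w).1 hw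
    have hc : c ∈ t'.image (fun c => g • c) := hc
    show _ ↔ D'.ev (rN c) ∈ D'.ev (rowN N)
    rw [r_mem_set hD' (hD'.fs u), rowN, r_mem_set hD' (hD'.row N)]
    show c ∈ u ↔ c.row = N
    rw [hmu]
    constructor
    · rintro (h | h | h)
      · exact absurd (h.2 ▸ hm) (hmove c h.1 hc)
      · exact h.2
      · rw [h] at hc; exact absurd hc hc0.2
    · intro h
      exact Or.inr (Or.inl ⟨hc, h⟩))
  have t3 := s3 _ _ _ t1 t2
  have t4 : D'.ev (natN i) = D'.ev (natN i') := t3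
  rw [Gen.ev_natN, Gen.ev_natN, nat_inj] at t4
  exact t4

/-- the model -/
theorem exists_model_om : ∃ (M : Type) (_ : Membership M M) (_ : StdZF M) (A : M),
    IsTop (XA A) (TA A) ∧ ZeroDim (XA A) (TA A) ∧ T1 (XA A) (TA A) ∧
    (∀ F : M, CdUltrafilter om (XA A) (TA A) F → Cip om F → Fixed F) ∧
    ¬ NCompact om (XA A) (TA A) := by
  obtain ⟨D, _, hup, hall, hsep⟩ := exists_gen_sep (G := Gp) (⊤ : Pc) stdN hs_stdN
  have hD : Good D := ⟨hup, hsep, hall⟩
  refine ⟨D.M, inferInstance, inferInstance, D.ev allN,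
    isTop_TA, zeroDim_TA, t1_TA, ?_, ?_⟩
  · intro F hF hcip
    refine fixed_of_cip (seq_fn hD) ?_ ?_ ?_ hF hcip
    · intro a ha
      obtain ⟨c, _, rfl⟩ := (mem_set hD hD.all a).1 ha
      refine ⟨nat c.row, nat_mem_om _, ?_⟩
      rw [seq_ap hD]
      exact (r_mem_set hD (hD.row _) c).2 rfl
    · intro n hn
      obtain ⟨n, rfl⟩ := (mem_om n).1 hn
      rw [seq_ap hD]
      exact ctb_row hD n
    · intro n hn
      obtain ⟨n, rfl⟩ := (mem_om n).1 hn
      rw [seq_ap hD]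
      exact ⟨_, (r_mem_set hD (hD.row n) ⟨n, 0⟩).2 rfl⟩
  · refine not_ncompact (seq_fn hD) ?_ ?_ ?_
    · intro n
      rw [seq_ap hD]
      exact ⟨_, (r_mem_set hD (hD.row n) ⟨n, 0⟩).2 rfl⟩
    · intro m n a h1 h2
      rw [seq_ap hD] at h1 h2
      obtain ⟨c, hc, rfl⟩ := (mem_set hD (hD.row m) a).1 h1
      have h3 := (r_mem_set hD (hD.row n) c).1 h2
      exact hc.symm.trans h3
    · intro f hf hc
      obtain ⟨N, hN⟩ := star hD hf hc
      refine ⟨N, fun m hm => ?_⟩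
      rw [seq_ap hD, seq_ap hD]
      exact hN m hm

end Pool.Agent.Helper73.NComp
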