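import Pool.Agent.Helper73.NComp.Official
import Pool.Agent.Helper73.NComp.Star
import Pool.Agent.Helper73.Off.Bridge

/-!
The official notions agree with the internal ones; the final theorem.
-/

namespace Pool.Agent.Helper73.NComp

open Pool.Agent.Helper73.Sym
open Pool.Agent.Helper73.Off (isFn_iff finite_iff countable_iff pr_ap)

section

variable {M : Type*} [Membership M M] [StdZF M]

theorem off_clopen {X T U : M} : Official.Clopen X T U ↔ Clopen X T U := by
  refine and_congr Iff.rfl ?_
  constructor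
  · rintro ⟨V, hV, h⟩
    have : df X U = V := mext fun z => by rw [mem_df, h]
    rw [this]; exact hV
  · intro h
    exact ⟨_, h, fun z => mem_df _ _ _⟩

theorem off_isTop {X T : M} (h : IsTop X T) : Official.IsTop X T :=
  ⟨h.1, h.2.1, fun S hS => ⟨_, h.2.2.1 S hS, fun z => mem_sUn _ _⟩,
    fun U V hU hV => ⟨_, h.2.2.2 U V hU hV, fun z => mem_in2 _ _ _⟩⟩

theorem off_zeroDim {X T : M} (h : ZeroDim X T) : Official.ZeroDim X T := by
  intro U hU x hx
  obtain ⟨V, hV, h1⟩ := h U hU x hx
  exact ⟨V, off_clopen.2 hV, h1⟩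

theorem off_cdSet {X T C : M} : Official.CdSet om X T C ↔ CdSet om X T C := by
  simp only [Official.CdSet, CdSet, countable_iff, off_clopen]
  rfl

theorem off_cdFilter {X T F : M} : Official.CdFilter om X T F ↔ CdFilter om X T F := by
  simp only [Official.CdFilter, CdFilter, off_cdSet]
  refine and_congr Iff.rfl (and_congr Iff.rfl (and_congr ?_ Iff.rfl))
  constructor
  · intro h C D hC hD
    exact h C D _ hC hD fun x => mem_in2 _ _ _
  · intro h C D E hC hD hE
    have : E = in2 C D := mext fun x => by rw [hE, mem_in2]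
    rw [this]; exact h C D hC hD

theorem off_cdUltrafilter {X T F : M} :
    Official.CdUltrafilter om X T F ↔ CdUltrafilter om X T F := by
  simp only [Official.CdUltrafilter, CdUltrafilter, off_cdFilter]
  rfl

theorem off_cip {F : M} : Official.Cip om F ↔ Cip om F := by
  simp only [Official.Cip, Cip, countable_iff]
  rfl

theorem off_prodOpen {J W : M} : Official.ProdOpen om J W ↔ ProdOpen om J W := by
  simp only [Official.ProdOpen, ProdOpen, isFn_iff, finite_iff]
  refine and_congr_right fun h0 => forall_congr' fun f => ?_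
  constructor
  · intro h hf
    obtain ⟨F, hF, hF', h1⟩ := h hf
    refine ⟨F, hF, hF', fun g hg hgf => h1 g hg fun j k hj hk => ?_⟩
    rw [pr_ap (h0 f hf)] at hk
    rw [pr_ap hg, hgf j hj]
    exact hk
  · intro h hf
    obtain ⟨F, hF, hF', h1⟩ := h hf
    refine ⟨F, hF, hF', fun g hg hgf => h1 g hg fun j hj => ?_⟩
    have := hgf j _ hj ((pr_ap (h0 f hf)).2 ⟨hF j hj, rfl⟩)
    exact ((pr_ap hg).1 this).2.symm

theorem off_nCompact {X T : M} (h : Official.NCompact om X T) : NCompact om X T := by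
  obtain ⟨J, C, h, hJ, hC, ⟨W0, hW0, hW0'⟩, hh, hinj, hsurj, hU⟩ := h
  simp only [isFn_iff, off_prodOpen] at hC hW0 hW0' hh hU
  refine ⟨J, hJ, C, h, hC, ⟨W0, hW0, hW0'⟩, hh, ?_, ?_, ?_⟩
  · intro x y hx hy hxy
    exact hinj x y (ap h x) ((pr_ap hh).2 ⟨hx, rfl⟩) ((pr_ap hh).2 ⟨hy, hxy⟩)
  · intro f hf
    obtain ⟨x, hx⟩ := hsurj f hf
    rw [pr_ap hh] at hx
    exact ⟨x, hx.1, hx.2.symm⟩
  · intro U hUX
    rw [hU U hUX]
    refine exists_congr fun W => and_congr_right fun _ => ?_
    constructor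
    · intro h1 x hx
      exact h1 x _ ((pr_ap hh).2 ⟨hx, rfl⟩)
    · intro h1 x f hxf
      rw [pr_ap hh] at hxf
      rw [hxf.2]
      exact h1 x hxf.1

end

/-- the model -/
theorem exists_model_official : ∃ (M : Type) (_ : Membership M M), IsZF M ∧ ∃ w X T : M,
    Off.IsOmega w ∧ Official.IsTop X T ∧ Official.ZeroDim X T ∧ Official.T1 X T ∧
    (∀ F : M, Official.CdUltrafilter w X T F → Official.Cip w F → Official.Fixed F) ∧
    ¬ Official.NCompact w X T := by
  obtain ⟨M, i1, i2, A, h1, h2, h3, h4, h5⟩ := exists_model_om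
  exact ⟨M, i1, i2.toIsZF, om, XA A, TA A, Off.isOmega_om, off_isTop h1, off_zeroDim h2, h3,
    fun F hF hc => h4 F (off_cdUltrafilter.1 hF) (off_cip.1 hc), fun h => h5 (off_nCompact h)⟩

end Pool.Agent.Helper73.NComp
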