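import Pool.Agent.Helper73.Sym.Lib

/-!
Internal versions of the notions of `Official.lean`, inside a model of ZF.
From the library are used: `op a b` (the ordered pair), `Sub` (inclusion), `sUn` (union),
`in2` (intersection), `df` (difference), `Fn f x y` (`f` is a function from `x` to `y`),
`ap f a` (the value of `f` at `a`).
-/

namespace Pool.Agent.Helper73.NComp

open Pool.Agent.Helper73.Sym

variable {M : Type*} [Membership M M] [IsZF M]

/-- `w` contains the empty set and is closed under successor -/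
def Inductive (w : M) : Prop :=
  (∃ e, e ∈ w ∧ ∀ z : M, ¬ z ∈ e) ∧
    ∀ n : M, n ∈ w → ∃ s : M, s ∈ w ∧ ∀ z : M, z ∈ s ↔ z ∈ n ∨ z = n

/-- `w` is the set of natural numbers -/
def IsOmega (w : M) : Prop := Inductive w ∧ ∀ w' : M, Inductive w' → Sub w w'

/-- `x` is finite (the image of a natural number) -/
def Finite (w x : M) : Prop :=
  ∃ n : M, n ∈ w ∧ ∃ f : M, Fn f n x ∧ ∀ y : M, y ∈ x → ∃ k, k ∈ n ∧ ap f k = y

/-- `x` is finite or countably infinite (there is an injection of `x` into the set of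
natural numbers) -/
def Countable (w x : M) : Prop :=
  ∃ f : M, Fn f x w ∧ ∀ a b : M, a ∈ x → b ∈ x → ap f a = ap f b → a = b

/-- `T` is a topology on `X` -/
def IsTop (X T : M) : Prop :=
  (∀ U : M, U ∈ T → Sub U X) ∧ X ∈ T ∧ (∀ S : M, Sub S T → sUn S ∈ T) ∧
    ∀ U V : M, U ∈ T → V ∈ T → in2 U V ∈ T

/-- `U` is clopen -/
def Clopen (X T U : M) : Prop := U ∈ T ∧ df X U ∈ T

/-- the clopen sets are a base -/
def ZeroDim (X T : M) : Prop :=
  ∀ U : M, U ∈ T → ∀ x : M, x ∈ U → ∃ V : M, Clopen X T V ∧ x ∈ V ∧ Sub V U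

def T1 (X T : M) : Prop :=
  ∀ x y : M, x ∈ X → y ∈ X → x ≠ y → ∃ U : M, U ∈ T ∧ x ∈ U ∧ ¬ y ∈ U

/-- `C` is a `c_δ`-set: the intersection of a non-empty countable family of clopen sets -/
def CdSet (w X T C : M) : Prop :=
  ∃ 𝒰 : M, (∃ V : M, V ∈ 𝒰) ∧ Countable w 𝒰 ∧ (∀ V : M, V ∈ 𝒰 → Clopen X T V) ∧
    ∀ x : M, x ∈ C ↔ ∀ V : M, V ∈ 𝒰 → x ∈ V

/-- `F` is a `c_δ`-filter -/
def CdFilter (w X T F : M) : Prop :=
  (∃ C : M, C ∈ F) ∧ (∀ C : M, C ∈ F → CdSet w X T C ∧ ∃ x : M, x ∈ C) ∧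
    (∀ C D : M, C ∈ F → D ∈ F → in2 C D ∈ F) ∧
    ∀ C D : M, C ∈ F → CdSet w X T D → Sub C D → D ∈ F

/-- `F` is a `c_δ`-ultrafilter: a maximal `c_δ`-filter -/
def CdUltrafilter (w X T F : M) : Prop :=
  CdFilter w X T F ∧ ∀ F' : M, CdFilter w X T F' → Sub F F' → F' = F

/-- the countable intersection property -/
def Cip (w F : M) : Prop :=
  ∀ 𝒰 : M, Sub 𝒰 F → (∃ V : M, V ∈ 𝒰) → Countable w 𝒰 → ∃ x : M, ∀ V : M, V ∈ 𝒰 → x ∈ V

/-- `F` is fixed -/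
def Fixed (F : M) : Prop := ∃ x : M, ∀ C : M, C ∈ F → x ∈ C

/-- `W` is an open subset of the product of `J` copies of the discrete space `w` -/
def ProdOpen (w J W : M) : Prop :=
  (∀ f : M, f ∈ W → Fn f J w) ∧ ∀ f : M, f ∈ W → ∃ F : M, Sub F J ∧ Finite w F ∧
    ∀ g : M, Fn g J w → (∀ j : M, j ∈ F → ap g j = ap f j) → g ∈ W

/-- `(X, T)` is homeomorphic to a closed subspace `C` of a product of `J ≠ ∅` copies of the
discrete space of natural numbers -/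
def NCompact (w X T : M) : Prop :=
  ∃ J : M, (∃ j : M, j ∈ J) ∧ ∃ C h : M, (∀ f : M, f ∈ C → Fn f J w) ∧
    (∃ W : M, ProdOpen w J W ∧ ∀ f : M, Fn f J w → (f ∈ W ↔ ¬ f ∈ C)) ∧
    Fn h X C ∧ (∀ x y : M, x ∈ X → y ∈ X → ap h x = ap h y → x = y) ∧
    (∀ f : M, f ∈ C → ∃ x : M, x ∈ X ∧ ap h x = f) ∧
    ∀ U : M, Sub U X →
      (U ∈ T ↔ ∃ W : M, ProdOpen w J W ∧ ∀ x : M, x ∈ X → (x ∈ U ↔ ap h x ∈ W))

end Pool.Agent.Helper73.NComp
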