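import Pool.Agent.Helper73.NComp.ZFPart2
import Pool.Agent.Helper73.Sym.Cohen

/-!
The symmetric model for MP_6a4164_lc.
-/

namespace Pool.Agent.Helper73.NComp

open Pool.Agent.Helper73.Sym

set_option synthInstance.maxSize 2000

/-- coordinates: the `idx`-th real of the row `row` -/
@[ext] structure Crd where
  row : ℕ
  idx : ℕ
deriving DecidableEq

instance : _root_.Countable Crd := by
  have : Function.Injective (fun c : Crd => (c.row, c.idx)) := by
    intro a b h
    have h1 := congrArg Prod.fst h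
    have h2 := congrArg Prod.snd h
    ext
    · exact h1
    · exact h2
  exact this.countable

/-- the group: a permutation for every row -/
def Gp : Type := ℕ → Equiv.Perm ℕ

instance : Group Gp := inferInstanceAs (Group (ℕ → Equiv.Perm ℕ))

instance : MulAction Gp Crd where
  smul g c := ⟨c.row, g c.row c.idx⟩
  one_smul c := rfl
  mul_smul g h c := rfl

theorem smul_row (g : Gp) (c : Crd) : (g • c).row = c.row := rfl
theorem smul_idx (g : Gp) (c : Crd) : (g • c).idx = g c.row c.idx := rfl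

instance : Spp Gp Crd where
  S := {A | ∃ n, ∀ c ∈ A, c.row < n}
  empty := ⟨0, by simp⟩
  union := by
    rintro A B ⟨n, hn⟩ ⟨m, hm⟩
    refine ⟨max n m, fun c hc => ?_⟩
    rcases hc with hc | hc
    · exact lt_max_of_lt_left (hn c hc)
    · exact lt_max_of_lt_right (hm c hc)
  smul := by
    rintro g A ⟨n, hn⟩
    exact ⟨{c | c.row < n}, ⟨n, fun c hc => hc⟩, fun c hc => hn c hc⟩
  sing := fun c => ⟨{d | d.row < c.row + 1}, ⟨c.row + 1, fun d hd => hd⟩, Nat.lt_succ_self _⟩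

abbrev Pc := Coh Crd

/-! ### the names -/

/-- a name of a set of reals -/
noncomputable def setN (t : Set Crd) : Nm Pc := uN (fun i : t => rN (i : Crd))

theorem smul_setN (g : Gp) (t : Set Crd) (p : Pc) :
    Eqv (g • setN t) (setN ((fun c => g • c) '' t)) p := by
  rw [setN, smul_uN]
  refine eqv_uN ?_ ?_
  · rintro ⟨i, hi⟩
    refine ⟨⟨g • i, i, hi, rfl⟩, ?_⟩
    rw [smul_rN]
    exact Eqv.refl _ _
  · rintro ⟨_, i, hi, rfl⟩
    refine ⟨⟨i, hi⟩, ?_⟩
    rw [smul_rN]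
    exact Eqv.refl _ _

theorem eqv_setN_of_inv (g : Gp) (t : Set Crd) (h : ∀ c, g • c ∈ t ↔ c ∈ t) (p : Pc) :
    Eqv (g • setN t) (setN t) p := by
  have h1 : (fun c => g • c) '' t = t := by
    ext c
    constructor
    · rintro ⟨d, hd, rfl⟩
      exact (h d).2 hd
    · intro hc
      refine ⟨g⁻¹ • c, (h _).1 (by simpa using hc), by simp⟩
  have := smul_setN g t p
  rwa [h1] at this

theorem hs_setN_fin (t : Finset Crd) : HS Gp (setN (t : Set Crd)) := by
  refine HS.intro (symm_iff.2 ?_) fun i => hs_rN _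
  obtain ⟨N, hN⟩ := (t.finite_toSet.image Crd.row).bddAbove
  refine ⟨{c | c.row < N + 1}, ⟨N + 1, fun c hc => hc⟩, fun g hg p => ?_⟩
  apply eqv_setN_of_inv
  intro c
  have key : ∀ c, c ∈ (t : Set Crd) → g • c = c := fun c hc => hg c (by
    have := hN ⟨c, hc, rfl⟩
    exact Nat.lt_succ_of_le this)
  constructor
  · intro h
    have h1 := hg c (by
      have := hN ⟨_, h, rfl⟩
      exact Nat.lt_succ_of_le this)
    rwa [h1] at h
  · intro h
    rw [key c h]; exact h

/-- the name of a row -/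
noncomputable def rowN (n : ℕ) : Nm Pc := setN {c | c.row = n}

/-- the name of the set of all reals -/
noncomputable def allN : Nm Pc := setN Set.univ

theorem smul_rowN (g : Gp) (n : ℕ) (p : Pc) : Eqv (g • rowN n) (rowN n) p :=
  eqv_setN_of_inv g _ (fun _ => Iff.rfl) p

theorem smul_allN (g : Gp) (p : Pc) : Eqv (g • allN) allN p :=
  eqv_setN_of_inv g _ (fun _ => Iff.rfl) p

theorem symm_of_eqv {x : Nm Pc} (h : ∀ (g : Gp) p, Eqv (g • x) x p) : Symm Gp x :=
  ⟨⊤, SymSys.top_mem, fun g _ p => h g p⟩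

theorem hs_rowN (n : ℕ) : HS Gp (rowN n) :=
  HS.intro (symm_of_eqv fun g p => smul_rowN g n p) fun i => hs_rN _

theorem hs_allN : HS Gp allN :=
  HS.intro (symm_of_eqv fun g p => smul_allN g p) fun i => hs_rN _

/-- the name of the sequence of rows -/
noncomputable def seqN : Nm Pc := uN (fun n => opN (natN n) (rowN n))

theorem hs_seqN : HS Gp seqN := by
  refine hs_uN (Spp.empty (G := Gp)) (fun n => hs_opN (natN_hs n) (hs_rowN n)) ?_
  intro g _ n p
  refine ⟨n, ?_⟩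
  rw [smul_opN, natN_smul]
  exact eqv_opN (Eqv.refl _ _) (smul_rowN g n p)

/-- the name of the bijection of a row with the natural numbers -/
noncomputable def enN (n : ℕ) : Nm Pc := uN (fun m => opN (rN ⟨n, m⟩) (natN m))

theorem hs_enN (n : ℕ) : HS Gp (enN n) := by
  have hA : {c : Crd | c.row < n + 1} ∈ Spp.S (G := Gp) (I := Crd) := ⟨n + 1, fun c hc => hc⟩
  refine hs_uN hA (fun m => hs_opN (hs_rN _) (natN_hs m)) ?_
  intro g hg m p
  refine ⟨m, ?_⟩
  rw [smul_opN, natN_smul, smul_rN, hg ⟨n, m⟩ (Nat.lt_succ_self n)]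
  exact Eqv.refl _ _

/-- codes of the names we need -/
abbrev Cd := Crd ⊕ (ℕ ⊕ (ℕ ⊕ (Finset Crd ⊕ Bool)))

noncomputable def stdN : Cd → Nm Pc
  | .inl c => rN c
  | .inr (.inl n) => rowN n
  | .inr (.inr (.inl n)) => enN n
  | .inr (.inr (.inr (.inl t))) => setN t
  | .inr (.inr (.inr (.inr b))) => if b then allN else seqN

theorem hs_stdN (k : Cd) : HS Gp (stdN k) := by
  rcases k with c | n | n | t | b
  · exact hs_rN c
  · exact hs_rowN n
  · exact hs_enN n
  · exact hs_setN_fin t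
  · cases b
    · exact hs_seqN
    · exact hs_allN

/-- the generic models we use -/
structure Good (D : Gen Pc Gp) : Prop where
  up : D.Upc
  sep : D.Sep
  std : ∀ k, D.Has (stdN k)

section

variable {D : Gen Pc Gp} (hD : Good D)

include hD

theorem Good.r (c : Crd) : D.Has (rN c) := hD.std (.inl c)
theorem Good.row (n : ℕ) : D.Has (rowN n) := hD.std (.inr (.inl n))
theorem Good.en (n : ℕ) : D.Has (enN n) := hD.std (.inr (.inr (.inl n)))
theorem Good.fs (t : Finset Crd) : D.Has (setN (t : Set Crd)) :=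
  hD.std (.inr (.inr (.inr (.inl t))))
theorem Good.all : D.Has allN := hD.std (.inr (.inr (.inr (.inr true))))
theorem Good.seq : D.Has seqN := hD.std (.inr (.inr (.inr (.inr false))))

theorem mem_set {t : Set Crd} (h : D.Has (setN t)) (z : D.M) :
    z ∈ D.ev (setN t) ↔ ∃ c ∈ t, z = D.ev (rN c) := by
  rw [setN, Gen.mem_ev_uN h (fun i => hD.r _)]
  simp

theorem r_mem_set {t : Set Crd} (h : D.Has (setN t)) (c : Crd) :
    D.ev (rN c) ∈ D.ev (setN t) ↔ c ∈ t := by
  rw [mem_set hD h]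
  constructor
  · rintro ⟨d, hd, he⟩
    rw [Gen.ev_rN_inj hD.sep (hD.r _) (hD.r _)] at he
    rwa [he]
  · intro hc
    exact ⟨c, hc, rfl⟩

theorem seq_fn : Fn (D.ev seqN) om (pw (D.ev allN)) := by
  have hm : ∀ z, z ∈ D.ev seqN ↔ ∃ n : ℕ, z = op (nat n) (D.ev (rowN n)) := by
    intro z
    rw [seqN, Gen.mem_ev_uN hD.seq (fun n => hD.up.opN (Gen.has_nat n) (hD.row n))]
    refine exists_congr fun n => ?_
    rw [Gen.ev_opN hD.up (Gen.has_nat n) (hD.row n), Gen.ev_natN]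
  constructor
  · intro z hz
    obtain ⟨n, rfl⟩ := (hm z).1 hz
    refine ⟨nat n, nat_mem_om n, _, (mem_pw _ _).2 fun w hw => ?_, rfl⟩
    obtain ⟨c, _, rfl⟩ := (mem_set hD (hD.row n) w).1 hw
    exact (r_mem_set hD hD.all c).2 trivial
  · intro a ha
    obtain ⟨n, rfl⟩ := (mem_om a).1 ha
    refine ⟨_, (hm _).2 ⟨n, rfl⟩, fun c hc => ?_⟩
    obtain ⟨m, hm⟩ := (hm _).1 hc
    rw [op_inj, nat_inj] at hm
    rw [hm.2, hm.1]

theorem seq_ap (n : ℕ) : ap (D.ev seqN) (nat n) = D.ev (rowN n) := by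
  apply ap_eq (seq_fn hD)
  rw [seqN, Gen.mem_ev_uN hD.seq (fun n => hD.up.opN (Gen.has_nat n) (hD.row n))]
  refine ⟨n, ?_⟩
  rw [Gen.ev_opN hD.up (Gen.has_nat n) (hD.row n), Gen.ev_natN]

theorem ctb_row (n : ℕ) : Ctb (D.ev (rowN n)) := by
  have hm : ∀ z, z ∈ D.ev (enN n) ↔ ∃ m : ℕ, z = op (D.ev (rN ⟨n, m⟩)) (nat m) := by
    intro z
    rw [enN, Gen.mem_ev_uN (hD.en n) (fun m => hD.up.opN (hD.r _) (Gen.has_nat m))]
    refine exists_congr fun m => ?_
    rw [Gen.ev_opN hD.up (hD.r _) (Gen.has_nat m), Gen.ev_natN]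
  have hf : Fn (D.ev (enN n)) (D.ev (rowN n)) om := by
    constructor
    · intro z hz
      obtain ⟨m, rfl⟩ := (hm z).1 hz
      exact ⟨_, (r_mem_set hD (hD.row n) ⟨n, m⟩).2 rfl, _, nat_mem_om m, rfl⟩
    · intro a ha
      obtain ⟨⟨k, m⟩, hc, rfl⟩ := (mem_set hD (hD.row n) a).1 ha
      obtain rfl : k = n := hc
      refine ⟨nat m, (hm _).2 ⟨m, rfl⟩, fun b hb => ?_⟩
      obtain ⟨m', hm'⟩ := (hm _).1 hb
      rw [op_inj, Gen.ev_rN_inj hD.sep (hD.r _) (hD.r _)] at hm'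
      have h1 : m = m' := congrArg Crd.idx hm'.1
      rw [hm'.2, h1]
  refine ⟨_, hf, fun a b ha hb hab => ?_⟩
  obtain ⟨⟨k, m⟩, hc, rfl⟩ := (mem_set hD (hD.row n) a).1 ha
  obtain ⟨⟨k', m'⟩, hc', rfl⟩ := (mem_set hD (hD.row n) b).1 hb
  obtain rfl : k = n := hc
  obtain rfl : k' = k := hc'
  rw [ap_eq hf ((hm _).2 ⟨m, rfl⟩), ap_eq hf ((hm _).2 ⟨m', rfl⟩), nat_inj] at hab
  rw [hab]

theorem exists_fs {F : D.M} (hF : Sub F (D.ev allN)) (hf : IsFin F) :
    ∃ t : Finset Crd, F = D.ev (setN (t : Set Crd)) := by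
  classical
  rw [isFin_iff] at hf
  have h1 : ∀ z, z ∈ F → ∃ c, z = D.ev (rN c) := fun z hz => by
    obtain ⟨c, _, h⟩ := (mem_set hD hD.all z).1 (hF z hz)
    exact ⟨c, h⟩
  have : Nonempty Crd := ⟨⟨0, 0⟩⟩
  choose! g hg using h1
  refine ⟨(hf.image g).toFinset, mext fun z => ?_⟩
  rw [mem_set hD (hD.fs _)]
  simp only [Set.Finite.coe_toFinset, Set.mem_image]
  constructor
  · intro hz
    exact ⟨g z, ⟨z, hz, rfl⟩, hg z hz⟩
  · rintro ⟨_, ⟨w, hw, rfl⟩, rfl⟩
    rw [← hg w hw]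
    exact hw

end

/-! ### the formulas -/

/-- `z = {x, y}` -/
def isUp (z x y : ℕ) : Fml := .all (.iff (.mem 0 (z + 1)) (.or (.eq 0 (x + 1)) (.eq 0 (y + 1))))

/-- `z = (x, y)` -/
def isOp (z x y : ℕ) : Fml :=
  .all (.iff (.mem 0 (z + 1)) (.or (isUp 0 (x + 1) (x + 1)) (isUp 0 (x + 1) (y + 1))))

theorem sat_isUp {M : Type*} [Membership M M] [IsZF M] (z x y : ℕ) (v : ℕ → M) :
    Sat (isUp z x y) v ↔ v z = upair (v x) (v y) := by
  simp only [isUp, sat_all, sat_iff, sat_mem, sat_or, sat_eq, cons_zero, cons_succ]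
  exact ⟨fun h => mext fun w => by rw [h, mem_upair], fun h w => by rw [h, mem_upair]⟩

theorem sat_isOp {M : Type*} [Membership M M] [IsZF M] (z x y : ℕ) (v : ℕ → M) :
    Sat (isOp z x y) v ↔ v z = op (v x) (v y) := by
  simp only [isOp, sat_all, sat_iff, sat_mem, sat_or, sat_isUp, cons_zero, cons_succ]
  exact ⟨fun h => mext fun w => by rw [h, op, mem_upair], fun h w => by rw [h, op, mem_upair]⟩

/-- `v 0` has value `v 3` at all non-empty subsets of `v 1` with the same trace on `v 4` as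
`v 2` -/
def fmA : Fml :=
  .all (.imp (.and (.all (.imp (.mem 0 1) (.mem 0 3))) (.ex (.mem 0 1)))
    (.imp (.all (.imp (.mem 0 6) (.iff (.mem 0 1) (.mem 0 4))))
      (.ex (.and (.mem 0 2) (isOp 0 1 5)))))

theorem sat_fmA {M : Type*} [Membership M M] [IsZF M] (v : ℕ → M) :
    Sat fmA v ↔ ∀ S : M, (Sub S (v 1) ∧ ∃ w : M, w ∈ S) →
      (∀ w : M, w ∈ v 4 → (w ∈ S ↔ w ∈ v 2)) → op S (v 3) ∈ v 0 := by
  simp only [fmA, sat_all, sat_imp, sat_and, sat_ex, sat_mem, sat_iff, sat_isOp, cons_zero,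
    cons_succ]
  refine forall_congr' fun S => imp_congr Iff.rfl (imp_congr Iff.rfl ?_)
  constructor
  · rintro ⟨z, hz, rfl⟩; exact hz
  · intro h; exact ⟨_, h, rfl⟩

/-- `v 0` is functional -/
def fmB : Fml :=
  .all (.all (.all (.imp (.ex (.and (.mem 0 4) (isOp 0 3 2)))
    (.imp (.ex (.and (.mem 0 4) (isOp 0 3 1))) (.eq 1 0)))))

theorem sat_fmB {M : Type*} [Membership M M] [IsZF M] (v : ℕ → M) :
    Sat fmB v ↔ ∀ S i j : M, op S i ∈ v 0 → op S j ∈ v 0 → i = j := by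
  simp only [fmB, sat_all, sat_imp, sat_and, sat_ex, sat_mem, sat_eq, sat_isOp, cons_zero,
    cons_succ]
  refine forall_congr' fun S => forall_congr' fun i => forall_congr' fun j => ?_
  constructor
  · intro h h1 h2
    exact h ⟨_, h1, rfl⟩ ⟨_, h2, rfl⟩
  · rintro h ⟨z, hz, rfl⟩ ⟨z', hz', rfl⟩
    exact h hz hz'

/-- the valuation with given first five values -/
def val5 {α : Type*} (a b c d e : α) : ℕ → α
  | 0 => a
  | 1 => b
  | 2 => c
  | 3 => d
  | _ => e

theorem ev_val5 {D : Gen Pc Gp} (a b c d e : Nm Pc) :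
    (fun n => D.ev (val5 a b c d e n)) = val5 (D.ev a) (D.ev b) (D.ev c) (D.ev d) (D.ev e) := by
  funext n
  rcases n with _ | _ | _ | _ | n <;> rfl

theorem smul_val5 (g : Gp) (a b c d e : Nm Pc) :
    (fun n => g • (val5 a b c d e n)) = val5 (g • a) (g • b) (g • c) (g • d) (g • e) := by
  funext n
  rcases n with _ | _ | _ | _ | n <;> rfl

/-- an element of the group fixing the first rows and moving a finite set away from itself -/
theorem exists_move (N : ℕ) (t : Finset Crd) :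
    ∃ g : Gp, (∀ c : Crd, c.row < N → g • c = c) ∧ ∀ c ∈ t, N ≤ c.row → ¬ g • c ∈ t := by
  obtain ⟨B, hB⟩ := (t.finite_toSet.image Crd.idx).bddAbove
  have hinv : Function.Involutive (fun m : ℕ => if m < B + 1 then m + (B + 1) else
      if m < 2 * (B + 1) then m - (B + 1) else m) := by
    intro m
    dsimp only
    split_ifs <;> omega
  refine ⟨fun n => if n < N then 1 else hinv.toPerm _, ?_, ?_⟩
  · rintro ⟨n, m⟩ hc
    have hc' : n < N := hc
    ext
    · rfl
    · rw [smul_idx]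
      simp [hc']
  · rintro ⟨n, m⟩ hc hn h
    have hn' : ¬ n < N := not_lt.2 hn
    have h1 : m ≤ B := hB ⟨_, hc, rfl⟩
    have h2 := hB ⟨_, h, rfl⟩
    rw [smul_idx] at h2
    simp only [hn', if_false] at h2
    have h3 : (hinv.toPerm _) m = m + (B + 1) := by
      show (if m < B + 1 then m + (B + 1) else _) = _
      rw [if_pos (by omega)]
    rw [h3] at h2
    omega

end Pool.Agent.Helper73.NComp
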