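import Pool.Agent.Helper73.Off.Basic

/-!
Official definitions for MP_6a4164_lc: topological notions inside a structure `(M, ∈)`, in
relational form. `w` is always the set of natural numbers of the structure.
-/

namespace Pool.Agent.Helper73.NComp.Official

open Pool.Agent.Helper73.Off

variable {M : Type*} [Membership M M]

/-- `T` is a topology on `X` -/
def IsTop (X T : M) : Prop :=
  (∀ U : M, U ∈ T → Sub U X) ∧ X ∈ T ∧
    (∀ S : M, Sub S T → ∃ U : M, U ∈ T ∧ ∀ z : M, z ∈ U ↔ ∃ V : M, V ∈ S ∧ z ∈ V) ∧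
    ∀ U V : M, U ∈ T → V ∈ T → ∃ W : M, W ∈ T ∧ ∀ z : M, z ∈ W ↔ z ∈ U ∧ z ∈ V

/-- `U` is clopen -/
def Clopen (X T U : M) : Prop :=
  U ∈ T ∧ ∃ V : M, V ∈ T ∧ ∀ z : M, z ∈ V ↔ z ∈ X ∧ ¬ z ∈ U

/-- the clopen sets are a base -/
def ZeroDim (X T : M) : Prop :=
  ∀ U : M, U ∈ T → ∀ x : M, x ∈ U → ∃ V : M, Clopen X T V ∧ x ∈ V ∧ Sub V U

/-- `(X, T)` is a `T₁`-space -/
def T1 (X T : M) : Prop :=
  ∀ x y : M, x ∈ X → y ∈ X → x ≠ y → ∃ U : M, U ∈ T ∧ x ∈ U ∧ ¬ y ∈ U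

/-- `C` is a `c_δ`-set: the intersection of a non-empty countable family `𝒰` of clopen sets -/
def CdSet (w X T C : M) : Prop :=
  ∃ 𝒰 : M, (∃ V : M, V ∈ 𝒰) ∧ Countable w 𝒰 ∧ (∀ V : M, V ∈ 𝒰 → Clopen X T V) ∧
    ∀ x : M, x ∈ C ↔ ∀ V : M, V ∈ 𝒰 → x ∈ V

/-- `F` is a `c_δ`-filter -/
def CdFilter (w X T F : M) : Prop :=
  (∃ C : M, C ∈ F) ∧ (∀ C : M, C ∈ F → CdSet w X T C ∧ ∃ x : M, x ∈ C) ∧
    (∀ C D E : M, C ∈ F → D ∈ F → (∀ x : M, x ∈ E ↔ x ∈ C ∧ x ∈ D) → E ∈ F) ∧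
    ∀ C D : M, C ∈ F → CdSet w X T D → Sub C D → D ∈ F

/-- `F` is a `c_δ`-ultrafilter: a maximal `c_δ`-filter -/
def CdUltrafilter (w X T F : M) : Prop :=
  CdFilter w X T F ∧ ∀ F' : M, CdFilter w X T F' → Sub F F' → F' = F

/-- the countable intersection property -/
def Cip (w F : M) : Prop :=
  ∀ 𝒰 : M, Sub 𝒰 F → (∃ V : M, V ∈ 𝒰) → Countable w 𝒰 → ∃ x : M, ∀ V : M, V ∈ 𝒰 → x ∈ V

/-- `F` is fixed: the intersection of all members of `F` is not empty -/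
def Fixed (F : M) : Prop := ∃ x : M, ∀ C : M, C ∈ F → x ∈ C

/-- `W` is an open subset of the product of `J` copies of the discrete space `w` -/
def ProdOpen (w J W : M) : Prop :=
  (∀ f : M, f ∈ W → IsFn f J w) ∧ ∀ f : M, f ∈ W → ∃ F : M, Sub F J ∧ Finite w F ∧
    ∀ g : M, IsFn g J w → (∀ j k : M, j ∈ F → Pr f j k → Pr g j k) → g ∈ W

/-- `(X, T)` is homeomorphic to a closed subspace `C` of a product of `J ≠ ∅` copies of the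
discrete space of natural numbers -/
def NCompact (w X T : M) : Prop :=
  ∃ J C h : M, (∃ j : M, j ∈ J) ∧ (∀ f : M, f ∈ C → IsFn f J w) ∧
    (∃ W : M, ProdOpen w J W ∧ ∀ f : M, IsFn f J w → (f ∈ W ↔ ¬ f ∈ C)) ∧
    IsFn h X C ∧ (∀ x y f : M, Pr h x f → Pr h y f → x = y) ∧
    (∀ f : M, f ∈ C → ∃ x : M, Pr h x f) ∧
    ∀ U : M, Sub U X →
      (U ∈ T ↔ ∃ W : M, ProdOpen w J W ∧ ∀ x f : M, Pr h x f → (x ∈ U ↔ f ∈ W))

end Pool.Agent.Helper73.NComp.Official
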