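import Pool.Agent.Helper73.NComp.Defs
import Pool.Agent.Helper73.Sym.Ctb

/-!
The part of the argument that is a theorem of ZF, inside a model with standard naturals.
-/

namespace Pool.Agent.Helper73.NComp

open Pool.Agent.Helper73.Sym

set_option synthInstance.maxSize 2000

section

variable {M : Type*} [Membership M M] [StdZF M]

theorem isOmega_om : IsOmega (om : M) := by
  refine ⟨⟨⟨nat 0, nat_mem_om 0, mem_nat_zero⟩, ?_⟩, ?_⟩
  · intro n hn
    obtain ⟨k, rfl⟩ := (mem_om n).1 hn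
    exact ⟨nat (k + 1), nat_mem_om _, fun z => mem_nat_succ k z⟩
  · intro w hw z hz
    obtain ⟨k, rfl⟩ := (mem_om z).1 hz
    induction k with
    | zero =>
      obtain ⟨e, he, h⟩ := hw.1
      have : e = nat 0 := mext fun z => iff_of_false (h z) (mem_nat_zero z)
      rwa [← this]
    | succ k ih =>
      obtain ⟨s, hs, h⟩ := hw.2 _ (ih (nat_mem_om k))
      have : s = nat (k + 1) := mext fun z => by rw [h, mem_nat_succ]
      rwa [← this]

theorem isFin_un2 {x y : M} (hx : IsFin x) (hy : IsFin y) : IsFin (un2 x y) := by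
  rw [isFin_iff] at hx hy ⊢
  refine (hx.union hy).subset fun z hz => ?_
  simpa using hz

theorem isFin_sing (x : M) : IsFin (upair x x) := by
  rw [isFin_iff]
  refine (Set.finite_singleton x).subset fun z hz => ?_
  simpa using hz

theorem isFin_emp : IsFin (emp : M) := by
  rw [isFin_iff]
  refine Set.finite_empty.subset fun z hz => ?_
  simp at hz

theorem ctb_sing (x : M) : Ctb (upair x x) :=
  Ctb.of_inj (fun _ => emp (M := M)) (fun _ _ => by rw [emp_eq]; exact nat_mem_om 0)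
    (fun a b ha hb _ => by simp at ha hb; rw [ha, hb])

/-! ### the space of non-empty subsets of `A` -/

/-- the non-empty subsets of `A` -/
noncomputable def XA (A : M) : M := sep (pw A) (fun S => ∃ a, a ∈ S)

/-- the topology of pointwise convergence -/
noncomputable def TA (A : M) : M :=
  sep (pw (XA A)) (fun U => ∀ S, S ∈ U → ∃ F, Sub F A ∧ IsFin F ∧
    ∀ S', S' ∈ XA A → (∀ a, a ∈ F → (a ∈ S' ↔ a ∈ S)) → S' ∈ U)

variable {A : M}

theorem mem_XA (S : M) : S ∈ XA A ↔ Sub S A ∧ ∃ a, a ∈ S := by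
  rw [XA, mem_sep, mem_pw]

theorem mem_TA (U : M) : U ∈ TA A ↔ Sub U (XA A) ∧ ∀ S, S ∈ U → ∃ F, Sub F A ∧ IsFin F ∧
    ∀ S', S' ∈ XA A → (∀ a, a ∈ F → (a ∈ S' ↔ a ∈ S)) → S' ∈ U := by
  rw [TA, mem_sep, mem_pw]

theorem isTop_TA : IsTop (XA A) (TA A) := by
  refine ⟨fun U hU => ((mem_TA U).1 hU).1, ?_, ?_, ?_⟩
  · refine (mem_TA _).2 ⟨fun z hz => hz, fun S _ => ⟨emp, fun z hz => absurd hz (mem_emp z),
      isFin_emp, fun S' hS' _ => hS'⟩⟩
  · intro S hS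
    refine (mem_TA _).2 ⟨?_, ?_⟩
    · intro z hz
      obtain ⟨U, hU, hz⟩ := (mem_sUn _ _).1 hz
      exact ((mem_TA U).1 (hS U hU)).1 z hz
    · intro z hz
      obtain ⟨U, hU, hz⟩ := (mem_sUn _ _).1 hz
      obtain ⟨F, hF, hf, h⟩ := ((mem_TA U).1 (hS U hU)).2 z hz
      exact ⟨F, hF, hf, fun S' hS' ha => (mem_sUn _ _).2 ⟨U, hU, h S' hS' ha⟩⟩
  · intro U V hU hV
    rw [mem_TA] at hU hV ⊢
    refine ⟨fun z hz => hU.1 z ((mem_in2 _ _ _).1 hz).1, fun S hS => ?_⟩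
    rw [mem_in2] at hS
    obtain ⟨F, hF, hf, h⟩ := hU.2 S hS.1
    obtain ⟨F', hF', hf', h'⟩ := hV.2 S hS.2
    refine ⟨un2 F F', fun z hz => ?_, isFin_un2 hf hf', fun S' hS' ha => ?_⟩
    · rcases (mem_un2 _ _ _).1 hz with hz | hz
      · exact hF z hz
      · exact hF' z hz
    · rw [mem_in2]
      exact ⟨h S' hS' fun a h1 => ha a ((mem_un2 _ _ _).2 (Or.inl h1)),
        h' S' hS' fun a h1 => ha a ((mem_un2 _ _ _).2 (Or.inr h1))⟩

/-- basic clopen sets -/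
theorem clopen_basic {S F : M} (hF : Sub F A) (hf : IsFin F) :
    Clopen (XA A) (TA A) (sep (XA A) (fun S' => ∀ a, a ∈ F → (a ∈ S' ↔ a ∈ S))) := by
  constructor
  · rw [mem_TA]
    refine ⟨fun z hz => ((mem_sep _ _ _).1 hz).1, fun S' hS' => ⟨F, hF, hf, fun S'' hS'' h => ?_⟩⟩
    rw [mem_sep] at hS' ⊢
    exact ⟨hS'', fun a ha => (h a ha).trans (hS'.2 a ha)⟩
  · rw [mem_TA]
    refine ⟨fun z hz => ((mem_df _ _ _).1 hz).1, fun S' hS' => ⟨F, hF, hf, fun S'' hS'' h => ?_⟩⟩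
    rw [mem_df, mem_sep] at hS' ⊢
    refine ⟨hS'', fun h1 => hS'.2 ⟨hS'.1, fun a ha => (h a ha).symm.trans (h1.2 a ha)⟩⟩

theorem zeroDim_TA : ZeroDim (XA A) (TA A) := by
  intro U hU S hS
  obtain ⟨F, hF, hf, h⟩ := ((mem_TA U).1 hU).2 S hS
  refine ⟨_, clopen_basic (S := S) hF hf, ?_, ?_⟩
  · rw [mem_sep]
    exact ⟨((mem_TA U).1 hU).1 S hS, fun a _ => Iff.rfl⟩
  · intro S' hS'
    rw [mem_sep] at hS'
    exact h S' hS'.1 hS'.2

theorem t1_TA : T1 (XA A) (TA A) := by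
  intro S S' hS hS' hne
  obtain ⟨a, ha⟩ : ∃ a, ¬ (a ∈ S' ↔ a ∈ S) := by
    by_contra hc
    push Not at hc
    exact hne (mext fun z => (hc z).symm)
  have haA : a ∈ A := by
    rw [mem_XA] at hS hS'
    by_contra hc
    exact ha ⟨fun h => absurd (hS'.1 a h) hc, fun h => absurd (hS.1 a h) hc⟩
  have hF : Sub (upair a a) A := by
    intro z hz
    simp only [mem_upair, or_self] at hz
    rw [hz]; exact haA
  refine ⟨_, (clopen_basic (S := S) hF (isFin_sing a)).1, ?_, ?_⟩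
  · rw [mem_sep]
    exact ⟨hS, fun a _ => Iff.rfl⟩
  · rw [mem_sep]
    rintro ⟨_, h⟩
    exact ha (h a (by simp))

/-- the set of the members of `X` containing `a` -/
noncomputable def vs (X a : M) : M := sep X (fun S => a ∈ S)

theorem mem_vs (X a S : M) : S ∈ vs X a ↔ S ∈ X ∧ a ∈ S := by rw [vs, mem_sep]

instance DT.vs' {t u : (ℕ → M) → M} [ht : DT t] [hu : DT u] :
    DT (fun v => vs (t v) (u v)) :=
  DT.app2 (Dfn.congr (S := fun v : ℕ → M => ∀ z, z ∈ v 0 ↔ z ∈ v 1 ∧ v 2 ∈ z) inferInstance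
    fun v => ⟨fun h z => by rw [h, mem_vs], fun h => mext fun z => by rw [h, mem_vs]⟩) ht hu

theorem clopen_vs {a : M} (ha : a ∈ A) : Clopen (XA A) (TA A) (vs (XA A) a) := by
  have hF : Sub (upair a a) A := by
    intro z hz
    simp only [mem_upair, or_self] at hz
    rw [hz]; exact ha
  have := clopen_basic (S := upair a a) hF (isFin_sing a)
  convert this using 1
  apply mext
  intro S
  rw [mem_vs, mem_sep]
  refine and_congr_right fun _ => ⟨fun h b hb => ?_, fun h => ?_⟩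
  · simp only [mem_upair, or_self] at hb
    subst hb
    exact ⟨fun _ => by simp, fun _ => h⟩
  · exact (h a (by simp)).2 (by simp)

theorem clopen_compl {X T U : M} (hT : IsTop X T) (h : Clopen X T U) :
    Clopen X T (df X U) := by
  refine ⟨h.2, ?_⟩
  have : df X (df X U) = U := mext fun z => by
    rw [mem_df, mem_df]
    constructor
    · intro h1
      by_contra hc
      exact h1.2 ⟨h1.1, hc⟩
    · intro h1
      exact ⟨hT.1 U h.1 z h1, fun h2 => h2.2 h1⟩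
  rw [this]; exact h.1

instance Dfn.cdSet {X T : M} {t : (ℕ → M) → M} [ht : DT t] :
    Dfn (fun v => CdSet om X T (t v)) := by
  refine Dfn.rel1 (R := CdSet om X T) ?_ ht
  exact inferInstanceAs (Dfn (fun v : ℕ → M => ∃ 𝒰 : M, (∃ V : M, V ∈ 𝒰) ∧ Ctb 𝒰 ∧
    (∀ V : M, V ∈ 𝒰 → (V ∈ T ∧ df X V ∈ T)) ∧
    ∀ x : M, x ∈ v 0 ↔ ∀ V : M, V ∈ 𝒰 → x ∈ V))

theorem CdSet.in2' {X T C D : M} (hC : CdSet om X T C) (hD : CdSet om X T D) :
    CdSet om X T (in2 C D) := by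
  obtain ⟨U, hU, hcU, h1, h2⟩ := hC
  obtain ⟨V, hV, hcV, h3, h4⟩ := hD
  refine ⟨un2 U V, ?_, Ctb.un2 hcU hcV, ?_, ?_⟩
  · obtain ⟨z, hz⟩ := hU
    exact ⟨z, (mem_un2 _ _ _).2 (Or.inl hz)⟩
  · intro W hW
    rcases (mem_un2 _ _ _).1 hW with hW | hW
    · exact h1 W hW
    · exact h3 W hW
  · intro x
    rw [mem_in2, h2, h4]
    constructor
    · rintro ⟨h5, h6⟩ W hW
      rcases (mem_un2 _ _ _).1 hW with hW | hW
      · exact h5 W hW
      · exact h6 W hW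
    · intro h
      exact ⟨fun W hW => h W ((mem_un2 _ _ _).2 (Or.inl hW)),
        fun W hW => h W ((mem_un2 _ _ _).2 (Or.inr hW))⟩

theorem CdSet.of_clopen {X T C : M} (hC : Clopen X T C) : CdSet om X T C := by
  refine ⟨upair C C, ⟨C, by simp⟩, ctb_sing C, ?_, ?_⟩
  · intro V hV
    simp only [mem_upair, or_self] at hV
    rw [hV]; exact hC
  · intro x
    simp

theorem CdSet.sub {X T C : M} (hT : IsTop X T) (hC : CdSet om X T C) : Sub C X := by
  obtain ⟨U, ⟨V, hV⟩, _, h1, h2⟩ := hC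
  intro x hx
  exact hT.1 V (h1 V hV).1 x ((h2 x).1 hx V hV)

/-- maximality -/
theorem mem_of_meets {X T F D : M} (hT : IsTop X T) (hF : CdUltrafilter om X T F)
    (hD : CdSet om X T D) (h : ∀ C, C ∈ F → ∃ x, x ∈ C ∧ x ∈ D) : D ∈ F := by
  obtain ⟨C0, hC0⟩ := hF.1.1
  set F' : M := sep (pw X) (fun E => CdSet (om (M := M)) X T E ∧ ∃ C, C ∈ F ∧ Sub (in2 C D) E) with hF'
  have hm : ∀ E, E ∈ F' ↔ CdSet om X T E ∧ ∃ C, C ∈ F ∧ Sub (in2 C D) E := by
    intro E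
    rw [hF', mem_sep, mem_pw]
    exact ⟨fun h => h.2, fun h => ⟨h.1.sub hT, h⟩⟩
  have h1 : CdFilter om X T F' := by
    refine ⟨⟨C0, (hm C0).2 ⟨(hF.1.2.1 C0 hC0).1, C0, hC0, fun z hz =>
      ((mem_in2 _ _ _).1 hz).1⟩⟩, ?_, ?_, ?_⟩
    · intro E hE
      obtain ⟨hE1, C, hC, hs⟩ := (hm E).1 hE
      obtain ⟨x, hx1, hx2⟩ := h C hC
      exact ⟨hE1, x, hs x ((mem_in2 _ _ _).2 ⟨hx1, hx2⟩)⟩
    · intro E E' hE hE'
      obtain ⟨hE1, C, hC, hs⟩ := (hm E).1 hE
      obtain ⟨hE1', C', hC', hs'⟩ := (hm E').1 hE'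
      refine (hm _).2 ⟨hE1.in2' hE1', in2 C C', hF.1.2.2.1 C C' hC hC', fun z hz => ?_⟩
      simp only [mem_in2] at hz ⊢
      exact ⟨hs z ((mem_in2 _ _ _).2 ⟨hz.1.1, hz.2⟩), hs' z ((mem_in2 _ _ _).2 ⟨hz.1.2, hz.2⟩)⟩
    · intro E E' hE hE' hs'
      obtain ⟨hE1, C, hC, hs⟩ := (hm E).1 hE
      exact (hm _).2 ⟨hE', C, hC, fun z hz => hs' z (hs z hz)⟩
  have h2 : Sub F F' := fun C hC => (hm C).2 ⟨(hF.1.2.1 C hC).1, C, hC,
    fun z hz => ((mem_in2 _ _ _).1 hz).1⟩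
  have h3 := hF.2 F' h1 h2
  rw [← h3, hm]
  exact ⟨hD, C0, hC0, fun z hz => ((mem_in2 _ _ _).1 hz).2⟩

theorem clopen_or {X T F V : M} (hT : IsTop X T) (hF : CdUltrafilter om X T F)
    (hV : Clopen X T V) : V ∈ F ∨ df X V ∈ F := by
  by_contra hc
  push Not at hc
  obtain ⟨h1, h2⟩ := hc
  have h3 : ∃ C, C ∈ F ∧ ∀ x, x ∈ C → ¬ x ∈ V := by
    by_contra h4
    push Not at h4
    exact h1 (mem_of_meets hT hF (CdSet.of_clopen hV) h4)
  have h4 : ∃ C, C ∈ F ∧ ∀ x, x ∈ C → ¬ x ∈ df X V := by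
    by_contra h5
    push Not at h5
    exact h2 (mem_of_meets hT hF (CdSet.of_clopen (clopen_compl hT hV)) h5)
  obtain ⟨C, hC, h5⟩ := h3
  obtain ⟨C', hC', h6⟩ := h4
  have h7 := hF.1.2.2.1 C C' hC hC'
  obtain ⟨h8, x, hx⟩ := hF.1.2.1 _ h7
  have hxX := h8.sub hT x hx
  rw [mem_in2] at hx
  exact h6 x hx.2 ((mem_df _ _ _).2 ⟨hxX, h5 x hx.1⟩)

/-- in ZF: if `A` is a countable union of countable sets then all `c_δ`-ultrafilters with the
countable intersection property on the space of non-empty subsets of `A` are fixed -/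
theorem fixed_of_cip {s : M} (hs : Fn s om (pw A)) (hA : ∀ a, a ∈ A → ∃ n, n ∈ (om : M) ∧
    a ∈ ap s n) (hc : ∀ n, n ∈ (om : M) → Ctb (ap s n)) (hne : ∀ n, n ∈ (om : M) →
    ∃ a, a ∈ ap s n) {F : M} (hF : CdUltrafilter om (XA A) (TA A) F) (hcip : Cip om F) :
    Fixed F := by
  have hT : IsTop (XA A) (TA A) := isTop_TA
  have hsA : ∀ n, n ∈ (om : M) → Sub (ap s n) A := fun n hn => (mem_pw _ _).1 (ap_mem hs hn)
  set w0 : M := sep A (fun a => vs (XA A) a ∈ F) with hw0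
  have hmw : ∀ a, a ∈ w0 ↔ a ∈ A ∧ vs (XA A) a ∈ F := by
    intro a; rw [hw0, mem_sep]
  have hsub0 : ∀ a, a ∈ A → ¬ a ∈ w0 → df (XA A) (vs (XA A) a) ∈ F := by
    intro a ha h
    rcases clopen_or hT hF (clopen_vs ha) with h1 | h1
    · exact absurd ((hmw a).2 ⟨ha, h1⟩) h
    · exact h1
  by_cases hw : ∃ a, a ∈ w0
  · -- the ultrafilter converges to `w0`
    have hwX : w0 ∈ XA A := (mem_XA _).2 ⟨fun a ha => ((hmw a).1 ha).1, hw⟩
    have hXF : XA A ∈ F := by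
      obtain ⟨C, hC⟩ := hF.1.1
      refine hF.1.2.2.2 C _ hC (CdSet.of_clopen ⟨hT.2.1, ?_⟩) ((hF.1.2.1 C hC).1.sub hT)
      have : df (XA A) (XA A) = sUn emp := mext fun z => by simp
      rw [this]
      exact hT.2.2.1 emp fun z hz => absurd hz (mem_emp z)
    have hN : ∀ (t : Set M), t.Finite → (∀ a ∈ t, a ∈ A) → ∀ N : M,
        (∀ S, S ∈ N ↔ S ∈ XA A ∧ ∀ a ∈ t, (a ∈ S ↔ a ∈ w0)) → N ∈ F := by
      intro t ht
      induction t, ht using Set.Finite.induction_on with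
      | empty =>
        intro _ N hN
        have : N = XA A := mext fun S => by rw [hN]; simp
        rw [this]; exact hXF
      | @insert a t _ ht ih =>
        intro hta N hN
        have haA : a ∈ A := hta a (Set.mem_insert _ _)
        obtain ⟨N', hN'⟩ : ∃ N' : M, ∀ S, S ∈ N' ↔ S ∈ XA A ∧ ∀ a ∈ t, (a ∈ S ↔ a ∈ w0) := by
          obtain ⟨t', ht', _⟩ := exists_finite_set (M := M) ht
          refine ⟨sep (XA A) (fun S => ∀ a, a ∈ t' → (a ∈ S ↔ a ∈ w0)), fun S => ?_⟩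
          rw [mem_sep]
          refine and_congr_right fun _ => forall_congr' fun b => ?_
          rw [ht']
        have hN'F := ih (fun b hb => hta b (Set.mem_insert_of_mem _ hb)) N' hN'
        by_cases haw : a ∈ w0
        · have h1 : N = in2 N' (vs (XA A) a) := mext fun S => by
            rw [hN, mem_in2, hN', mem_vs]
            constructor
            · rintro ⟨h2, h3⟩
              exact ⟨⟨h2, fun b hb => h3 b (Set.mem_insert_of_mem _ hb)⟩, h2,
                (h3 a (Set.mem_insert _ _)).2 haw⟩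
            · rintro ⟨⟨h2, h3⟩, _, h4⟩
              refine ⟨h2, fun b hb => ?_⟩
              rcases Set.mem_insert_iff.1 hb with rfl | hb
              · exact ⟨fun _ => haw, fun _ => h4⟩
              · exact h3 b hb
          rw [h1]
          exact hF.1.2.2.1 _ _ hN'F ((hmw a).1 haw).2
        · have h1 : N = in2 N' (df (XA A) (vs (XA A) a)) := mext fun S => by
            rw [hN, mem_in2, hN', mem_df, mem_vs]
            constructor
            · rintro ⟨h2, h3⟩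
              exact ⟨⟨h2, fun b hb => h3 b (Set.mem_insert_of_mem _ hb)⟩, h2,
                fun h5 => haw ((h3 a (Set.mem_insert _ _)).1 h5.2)⟩
            · rintro ⟨⟨h2, h3⟩, _, h4⟩
              refine ⟨h2, fun b hb => ?_⟩
              rcases Set.mem_insert_iff.1 hb with rfl | hb
              · exact ⟨fun h5 => absurd ⟨h2, h5⟩ h4, fun h5 => absurd h5 haw⟩
              · exact h3 b hb
          rw [h1]
          exact hF.1.2.2.1 _ _ hN'F (hsub0 a haA haw)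
    refine ⟨w0, fun C hC => ?_⟩
    obtain ⟨U, hU, _, h1, h2⟩ := (hF.1.2.1 C hC).1
    rw [h2]
    intro V hV
    by_contra hwV
    have hVF : V ∈ F := hF.1.2.2.2 C V hC (CdSet.of_clopen (h1 V hV))
      fun x hx => (h2 x).1 hx V hV
    obtain ⟨F0, hF0, hf0, h3⟩ := ((mem_TA _).1 (h1 V hV).2).2 w0 ((mem_df _ _ _).2 ⟨hwX, hwV⟩)
    have hNF := hN {a | a ∈ F0} ((isFin_iff F0).1 hf0) (fun a ha => hF0 a ha)
      (sep (XA A) (fun S => ∀ a, a ∈ F0 → (a ∈ S ↔ a ∈ w0))) (fun S => by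
        rw [mem_sep]; rfl)
    obtain ⟨_, x, hx⟩ := hF.1.2.1 _ (hF.1.2.2.1 _ _ hNF hVF)
    rw [mem_in2, mem_sep] at hx
    exact ((mem_df _ _ _).1 (h3 x hx.1.1 hx.1.2)).2 hx.2
  · -- impossible
    exfalso
    push Not at hw
    have hall : ∀ a, a ∈ A → df (XA A) (vs (XA A) a) ∈ F := fun a ha => hsub0 a ha (hw a)
    set cs : M → M := fun k => sep (XA A) (fun S => ∀ a, a ∈ ap s k → ¬ a ∈ S) with hcs
    have hmcs : ∀ k S, S ∈ cs k ↔ S ∈ XA A ∧ ∀ a, a ∈ ap s k → ¬ a ∈ S := by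
      intro k S; rw [hcs]; simp only [mem_sep]
    have hDcs : Dfn (fun v : ℕ → M => v 0 = cs (v 1)) :=
      Dfn.congr (S := fun v : ℕ → M => ∀ z, z ∈ v 0 ↔ z ∈ XA A ∧ ∀ a, a ∈ ap s (v 1) → ¬ a ∈ z)
        inferInstance fun v => ⟨fun h z => by rw [h, hmcs], fun h => mext fun z => by rw [h, hmcs]⟩
    have hcsF : ∀ k, k ∈ (om : M) → cs k ∈ F := by
      intro k hk
      have hcd : CdSet om (XA A) (TA A) (cs k) := by
        refine ⟨img (fun a => df (XA A) (vs (XA A) a)) (ap s k), ?_,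
          Ctb.img (hc k hk) (fun a => df (XA A) (vs (XA A) a)), ?_, ?_⟩
        · obtain ⟨a, ha⟩ := hne k hk
          exact ⟨_, (mem_img _ _ _).2 ⟨a, ha, rfl⟩⟩
        · intro V hV
          obtain ⟨a, ha, rfl⟩ := (mem_img _ _ _).1 hV
          exact clopen_compl hT (clopen_vs (hsA k hk a ha))
        · intro S
          rw [hmcs]
          constructor
          · rintro ⟨h1, h2⟩ V hV
            obtain ⟨a, ha, rfl⟩ := (mem_img _ _ _).1 hV
            rw [mem_df, mem_vs]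
            exact ⟨h1, fun h3 => h2 a ha h3.2⟩
          · intro h
            have h1 : ∀ a, a ∈ ap s k → S ∈ XA A ∧ ¬ (S ∈ XA A ∧ a ∈ S) := by
              intro a ha
              have := h _ ((mem_img _ _ _).2 ⟨a, ha, rfl⟩)
              rwa [mem_df, mem_vs] at this
            obtain ⟨a, ha⟩ := hne k hk
            exact ⟨(h1 a ha).1, fun b hb h2 => (h1 b hb).2 ⟨(h1 b hb).1, h2⟩⟩
      refine mem_of_meets hT hF hcd fun C hC => ?_
      have h1 : ∃ x, ∀ V, V ∈ un2 (upair C C) (img (fun a => df (XA A) (vs (XA A) a)) (ap s k)) →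
          x ∈ V := by
        refine hcip _ ?_ ⟨C, by simp⟩ (Ctb.un2 (ctb_sing C)
          (Ctb.img (hc k hk) (fun a => df (XA A) (vs (XA A) a))))
        intro V hV
        rcases (mem_un2 _ _ _).1 hV with hV | hV
        · simp only [mem_upair, or_self] at hV
          rw [hV]; exact hC
        · obtain ⟨a, ha, rfl⟩ := (mem_img _ _ _).1 hV
          exact hall a (hsA k hk a ha)
      obtain ⟨x, hx⟩ := h1
      have hxC : x ∈ C := hx C (by simp)
      refine ⟨x, hxC, (hmcs k x).2 ⟨(hF.1.2.1 C hC).1.sub hT x hxC, fun a ha hax => ?_⟩⟩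
      have h2 := hx (df (XA A) (vs (XA A) a)) ((mem_un2 _ _ _).2
        (Or.inr ((mem_img _ _ _).2 ⟨a, ha, rfl⟩)))
      rw [mem_df, mem_vs] at h2
      exact h2.2 ⟨h2.1, hax⟩
    obtain ⟨S, hS⟩ : ∃ x, ∀ V, V ∈ img cs (om : M) → x ∈ V := by
      refine hcip _ ?_ ⟨_, (mem_img _ _ _).2 ⟨nat 0, nat_mem_om 0, rfl⟩⟩ (Ctb.img Ctb.om' cs)
      intro V hV
      obtain ⟨k, hk, rfl⟩ := (mem_img _ _ _).1 hV
      exact hcsF k hk
    have hS' : ∀ k, k ∈ (om : M) → S ∈ XA A ∧ ∀ a, a ∈ ap s k → ¬ a ∈ S := by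
      intro k hk
      exact (hmcs k S).1 (hS _ ((mem_img _ _ _).2 ⟨k, hk, rfl⟩))
    obtain ⟨a, ha⟩ := ((mem_XA S).1 (hS' _ (nat_mem_om 0)).1).2
    obtain ⟨k, hk, h1⟩ := hA a (((mem_XA S).1 (hS' _ (nat_mem_om 0)).1).1 a ha)
    exact (hS' k hk).2 a h1 ha

end

end Pool.Agent.Helper73.NComp
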