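import Pool.Agent.Helper73.NComp.ZFPart

/-!
Second part of the argument inside ZF: failure of `ℕ`-compactness.
-/

namespace Pool.Agent.Helper73.NComp

open Pool.Agent.Helper73.Sym

set_option synthInstance.maxSize 2000

section

variable {M : Type*} [Membership M M] [StdZF M]

theorem exists_bound {F : M} (hf : IsFin F) (Q : M → ℕ → Prop) (h : ∀ j, j ∈ F → ∃ N, Q j N)
    (hmono : ∀ j N N', N ≤ N' → Q j N → Q j N') : ∃ N, ∀ j, j ∈ F → Q j N := by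
  rw [isFin_iff] at hf
  choose! g hg using h
  obtain ⟨N, hN⟩ := (hf.image g).bddAbove
  exact ⟨N, fun j hj => hmono j _ _ (hN ⟨j, hj, rfl⟩) (hg j hj)⟩

/-- in ZF: if the values of every continuous function at the rows are eventually constant,
then the space of non-empty subsets of `A` is not `ℕ`-compact -/
theorem not_ncompact {A s : M} (hs : Fn s om (pw A))
    (hne : ∀ n : ℕ, ∃ a, a ∈ ap s (nat n))
    (hdisj : ∀ m n : ℕ, ∀ a, a ∈ ap s (nat m) → a ∈ ap s (nat n) → m = n)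
    (star : ∀ f, Fn f (XA A) om →
      (∀ S, S ∈ XA A → ∃ F, Sub F A ∧ IsFin F ∧
        ∀ S', S' ∈ XA A → (∀ a, a ∈ F → (a ∈ S' ↔ a ∈ S)) → ap f S' = ap f S) →
      ∃ N : ℕ, ∀ m ≥ N, ap f (ap s (nat m)) = ap f (ap s (nat N))) :
    ¬ NCompact om (XA A) (TA A) := by
  rintro ⟨J, ⟨j0, hj0⟩, C, h, hC, ⟨W0, hW0, hW0'⟩, hh, hinj, hsurj, hU⟩
  have hrow : ∀ n : ℕ, ap s (nat n) ∈ XA A := fun n =>
    (mem_XA _).2 ⟨(mem_pw _ _).1 (ap_mem hs (nat_mem_om n)), hne n⟩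
  have hhC : ∀ S, S ∈ XA A → Fn (ap h S) J om := fun S hS => hC _ (ap_mem hh hS)
  -- coordinates are continuous
  have hcont : ∀ j, j ∈ J → ∀ S, S ∈ XA A → ∃ F, Sub F A ∧ IsFin F ∧
      ∀ S', S' ∈ XA A → (∀ a, a ∈ F → (a ∈ S' ↔ a ∈ S)) → ap (ap h S') j = ap (ap h S) j := by
    intro j hj S hS
    set W : M := sep (pw (prod J om)) (fun g => Fn g J (om (M := M)) ∧ ap g j = ap (ap h S) j)
      with hW
    have hmW : ∀ g, g ∈ W ↔ Fn g J om ∧ ap g j = ap (ap h S) j := by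
      intro g
      rw [hW, mem_sep, mem_pw]
      refine ⟨fun h => h.2, fun h => ⟨fun z hz => ?_, h⟩⟩
      obtain ⟨a, ha, b, hb, rfl⟩ := h.1.1 z hz
      exact (op_mem_prod _ _ _ _).2 ⟨ha, hb⟩
    have hPW : ProdOpen om J W := by
      refine ⟨fun f hf => ((hmW f).1 hf).1, fun f hf => ⟨upair j j, ?_, isFin_sing j, ?_⟩⟩
      · intro z hz
        simp only [mem_upair, or_self] at hz
        rw [hz]; exact hj
      · intro g hg hgf
        rw [hmW]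
        exact ⟨hg, (hgf j (by simp)).trans ((hmW f).1 hf).2⟩
    set U : M := sep (XA A) (fun S' => ap (ap h S') j = ap (ap h S) j) with hUdef
    have hmU : ∀ S', S' ∈ U ↔ S' ∈ XA A ∧ ap (ap h S') j = ap (ap h S) j := by
      intro S'; rw [hUdef, mem_sep]
    have hUT : U ∈ TA A := by
      rw [hU U (fun z hz => ((hmU z).1 hz).1)]
      refine ⟨W, hPW, fun x hx => ?_⟩
      rw [hmU, hmW]
      exact ⟨fun h1 => ⟨hhC x hx, h1.2⟩, fun h1 => ⟨hx, h1.2⟩⟩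
    obtain ⟨F, hF, hf, h1⟩ := ((mem_TA _).1 hUT).2 S ((hmU S).2 ⟨hS, rfl⟩)
    exact ⟨F, hF, hf, fun S' hS' ha => ((hmU _).1 (h1 S' hS' ha)).2⟩
  have hev : ∀ j, j ∈ J → ∃ N : ℕ, ∀ m ≥ N,
      ap (ap h (ap s (nat m))) j = ap (ap h (ap s (nat N))) j := by
    intro j hj
    have e : ∀ S, S ∈ XA A → ap (lam (XA A) (fun S => ap (ap h S) j)) S = ap (ap h S) j :=
      fun S hS => ap_lam hS
    obtain ⟨N, hN⟩ := star (lam (XA A) (fun S => ap (ap h S) j))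
      (lam_fn fun S hS => ap_mem (hhC S hS) hj) (by
        intro S hS
        obtain ⟨F, hF, hf, h1⟩ := hcont j hj S hS
        refine ⟨F, hF, hf, fun S' hS' ha => ?_⟩
        rw [e S hS, e S' hS']
        exact h1 S' hS' ha)
    refine ⟨N, fun m hm => ?_⟩
    have := hN m hm
    rwa [e _ (hrow m), e _ (hrow N)] at this
  -- the limit
  set y : M := rel J om (fun j k => ∃ N, N ∈ (om (M := M)) ∧ ∀ m, m ∈ (om (M := M)) →
    Sub N m → ap (ap h (ap s m)) j = k) with hy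
  have hsub : ∀ N m : ℕ, Sub (nat N : M) (nat m) ↔ N ≤ m := by
    intro N m
    constructor
    · intro h1
      by_contra hc
      have := h1 (nat m) (nat_mem_nat.2 (by omega))
      exact not_mem_self _ this
    · intro h1 z hz
      obtain ⟨k, hk, rfl⟩ := (mem_nat N z).1 hz
      exact nat_mem_nat.2 (by omega)
  have hyf : Fn y J om := by
    refine rel_fn fun j hj => ?_
    obtain ⟨N, hN⟩ := hev j hj
    refine ⟨ap (ap h (ap s (nat N))) j, ap_mem (hhC _ (hrow N)) hj, ⟨nat N, nat_mem_om N, ?_⟩, ?_⟩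
    · intro m hm hs
      obtain ⟨m, rfl⟩ := (mem_om m).1 hm
      exact hN m ((hsub N m).1 hs)
    · rintro c _ ⟨N', hN', h1⟩
      obtain ⟨N', rfl⟩ := (mem_om N').1 hN'
      rw [← h1 (nat (max N N')) (nat_mem_om _) ((hsub _ _).2 (le_max_right _ _)),
        hN _ (le_max_left _ _)]
  have hyv : ∀ j, j ∈ J → ∃ N : ℕ, ∀ m ≥ N, ap (ap h (ap s (nat m))) j = ap y j := by
    intro j hj
    obtain ⟨_, _, N, hN, h1⟩ := (op_mem_rel _ _ _ j (ap y j)).1 (ap_spec hyf hj)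
    obtain ⟨N, rfl⟩ := (mem_om N).1 hN
    exact ⟨N, fun m hm => h1 _ (nat_mem_om m) ((hsub _ _).2 hm)⟩
  have hfin : ∀ F, Sub F J → IsFin F → ∃ N : ℕ, ∀ m ≥ N, ∀ j, j ∈ F →
      ap (ap h (ap s (nat m))) j = ap y j := by
    intro F hF hf
    obtain ⟨N, hN⟩ := exists_bound hf
      (fun j N => ∀ m ≥ N, ap (ap h (ap s (nat m))) j = ap y j)
      (fun j hj => hyv j (hF j hj)) (fun j N N' hNN' h1 m hm => h1 m (by omega))
    exact ⟨N, fun m hm j hj => hN j hj m hm⟩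
  have hyC : y ∈ C := by
    by_contra hyC
    have hyW : y ∈ W0 := (hW0' y hyf).2 hyC
    obtain ⟨F, hF, hf, h1⟩ := hW0.2 y hyW
    obtain ⟨N, hN⟩ := hfin F hF hf
    have h2 := h1 _ (hhC _ (hrow N)) (hN N le_rfl)
    exact (hW0' _ (hhC _ (hrow N))).1 h2 (ap_mem hh (hrow N))
  obtain ⟨S0, hS0, hS0y⟩ := hsurj y hyC
  obtain ⟨hS0A, a, ha⟩ := (mem_XA S0).1 hS0
  have hVT : vs (XA A) a ∈ TA A := (clopen_vs (hS0A a ha)).1
  obtain ⟨W, hW, hW'⟩ := (hU _ (fun z hz => ((mem_vs _ _ _).1 hz).1)).1 hVT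
  have h1 : y ∈ W := by
    rw [← hS0y]
    exact (hW' S0 hS0).1 ((mem_vs _ _ _).2 ⟨hS0, ha⟩)
  obtain ⟨F, hF, hf, h2⟩ := hW.2 y h1
  obtain ⟨N, hN⟩ := hfin F hF hf
  have h3 : ∀ m ≥ N, a ∈ ap s (nat m) := by
    intro m hm
    have h4 := h2 _ (hhC _ (hrow m)) (hN m hm)
    exact ((mem_vs _ _ _).1 ((hW' _ (hrow m)).2 h4)).2
  have := hdisj N (N + 1) a (h3 N le_rfl) (h3 (N + 1) (by omega))
  omega

end

end Pool.Agent.Helper73.NComp
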